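import Pool.Agent.H23.NE.Core

/-!
# NE Base: the base step of Lemma (E), with the two-sided bound

Outside the disc of radius `R₀`: `s n / ε n → σ`, `s' n / ε n → σ'`, `t' n → τ`, `K n → P`; growth `|σ| ≤ A |u|^o`, `|τ| ≤ A |u|^(-2)`, `|P| ≤ A |u|^M`.
If `c |s|^(κ+θ) |t'| ≤ e ≤ C |s|^κ (|s'| + |s|^θ |t'|)` and `e |K|^η |u - u_n|^(-a)` has lower supports of exponent `-δ n → 0`, then
`2 + a ≤ (κ + θ) o + η M`.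
-/

set_option autoImplicit false
set_option linter.unusedSectionVars false

open Topology Filter Metric

namespace Pool.Agent.H23.NE

open Pool.Agent.H36.BP (Sub)
open Pool.Agent.H74.NB (CC unif_of_seq)

variable {E : Type*} [NormedAddCommGroup E] [NormedSpace ℂ E] {𝒰 : Ultrafilter ℕ}

theorem base {e : ℕ → ℂ → ℝ} {K : ℕ → ℂ → E} {P : ℂ → E} {s s' t' : ℕ → ℂ → ℂ} {σ σ' τ : ℂ → ℂ} {δ ε : ℕ → ℝ} {un : ℕ → ℂ} {u₀ u₁ : ℂ}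
    {R₀ κ θ η a o M A c C : ℝ} (hR₀ : 0 < R₀) (hκ : 0 ≤ κ) (hθ : 0 < θ) (hθ1 : θ < 1) (hη : 0 ≤ η) (ha : 0 ≤ a) (hA : 0 ≤ A) (hc : 0 < c)
    (hC : 0 ≤ C) (hδ : Tendsto δ 𝒰 (𝓝 0)) (hε : ∀ᶠ n in (𝒰 : Filter ℕ), 0 < ε n) (hε0 : Tendsto ε 𝒰 (𝓝 0)) (hun : Tendsto un 𝒰 (𝓝 u₀))
    (hu₀ : 2 * ‖u₀‖ ≤ R₀) (hu₁ : R₀ < ‖u₁‖)
    (hs : CC 𝒰 (fun n u => ((ε n : ℂ))⁻¹ * s n u) σ {u | R₀ < ‖u‖}) (hs' : CC 𝒰 (fun n u => ((ε n : ℂ))⁻¹ * s' n u) σ' {u | R₀ < ‖u‖})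
    (ht' : CC 𝒰 t' τ {u | R₀ < ‖u‖}) (hK : CC 𝒰 K P {u | R₀ < ‖u‖})
    (hσA : ∀ u : ℂ, R₀ < ‖u‖ → ‖σ u‖ ≤ A * ‖u‖ ^ o) (hτA : ∀ u : ℂ, R₀ < ‖u‖ → ‖τ u‖ ≤ A * ‖u‖ ^ (-2 : ℝ))
    (hPA : ∀ u : ℂ, R₀ < ‖u‖ → ‖P u‖ ≤ A * ‖u‖ ^ M) (hσ1 : σ u₁ ≠ 0) (hτ1 : τ u₁ ≠ 0) (hP1 : P u₁ ≠ 0)
    (hlow : ∀ᶠ n in (𝒰 : Filter ℕ), c * (‖s n u₁‖ ^ (κ + θ) * ‖t' n u₁‖) ≤ e n u₁)
    (hup : ∀ R, R₀ < R → ∀ᶠ n in (𝒰 : Filter ℕ), ∀ z ∈ sphere (0 : ℂ) R,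
      e n z ≤ C * (‖s n z‖ ^ κ * (‖s' n z‖ + ‖s n z‖ ^ θ * ‖t' n z‖)))
    (husc : ∀ R, R₀ < R → ∀ᶠ n in (𝒰 : Filter ℕ), UpperSemicontinuousOn (fun z => e n z * ‖K n z‖ ^ η * ‖z - un n‖ ^ (-a)) (closedBall 0 R))
    (hsub : ∀ R, R₀ < R → ∀ᶠ n in (𝒰 : Filter ℕ), ∀ z ∈ ball (0 : ℂ) R, 0 < e n z * ‖K n z‖ ^ η * ‖z - un n‖ ^ (-a) →
      Sub (fun z => e n z * ‖K n z‖ ^ η * ‖z - un n‖ ^ (-a)) z (-δ n)) :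
    2 + a ≤ (κ + θ) * o + η * M := by
  have hpos : ∀ u : ℂ, R₀ < ‖u‖ → u ≠ u₀ := by
    rintro u hu rfl
    linarith [norm_nonneg u]
  have hκθ : 0 < κ + θ := by linarith
  -- the limit of `W n / ε n ^ (κ + θ)`, from below
  have hlow' : ∃ c' : ℝ, 0 < c' ∧ ∀ᶠ n in (𝒰 : Filter ℕ), c' * ε n ^ (κ + θ) ≤ e n u₁ * ‖K n u₁‖ ^ η * ‖u₁ - un n‖ ^ (-a) := by
    have h1 : Tendsto (fun n => ‖((ε n : ℂ))⁻¹ * s n u₁‖ ^ (κ + θ)) 𝒰 (𝓝 (‖σ u₁‖ ^ (κ + θ))) :=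
      (hs u₁ hu₁ _ tendsto_const_nhds).norm.rpow_const (Or.inl (norm_ne_zero_iff.2 hσ1))
    have h2 : Tendsto (fun n => ‖t' n u₁‖) 𝒰 (𝓝 ‖τ u₁‖) := (ht' u₁ hu₁ _ tendsto_const_nhds).norm
    have h3 : Tendsto (fun n => ‖K n u₁‖ ^ η) 𝒰 (𝓝 (‖P u₁‖ ^ η)) :=
      (hK u₁ hu₁ _ tendsto_const_nhds).norm.rpow_const (Or.inl (norm_ne_zero_iff.2 hP1))
    have h4 : Tendsto (fun n => ‖u₁ - un n‖ ^ (-a)) 𝒰 (𝓝 (‖u₁ - u₀‖ ^ (-a))) :=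
      ((tendsto_const_nhds.sub hun).norm).rpow_const (Or.inl (norm_ne_zero_iff.2 (sub_ne_zero.2 (hpos u₁ hu₁))))
    have h5 := ((h1.mul h2).mul h3).mul h4
    set L : ℝ := ‖σ u₁‖ ^ (κ + θ) * ‖τ u₁‖ * ‖P u₁‖ ^ η * ‖u₁ - u₀‖ ^ (-a) with hL
    have hL0 : 0 < L := by
      have := norm_pos_iff.2 hσ1
      have := norm_pos_iff.2 hτ1
      have := norm_pos_iff.2 hP1
      have := norm_pos_iff.2 (sub_ne_zero.2 (hpos u₁ hu₁))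
      positivity
    refine ⟨c * (L / 2), by positivity, ?_⟩
    filter_upwards [h5.eventually (lt_mem_nhds (half_lt_self hL0)), hlow, hε] with n h6 h7 h8
    have h9 : ‖s n u₁‖ = ε n * ‖((ε n : ℂ))⁻¹ * s n u₁‖ := by
      rw [norm_mul, norm_inv, Complex.norm_real, Real.norm_of_nonneg h8.le, mul_inv_cancel_left₀ h8.ne']
    have h10 : ‖s n u₁‖ ^ (κ + θ) = ε n ^ (κ + θ) * ‖((ε n : ℂ))⁻¹ * s n u₁‖ ^ (κ + θ) := by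
      rw [h9, Real.mul_rpow h8.le (norm_nonneg _)]
    have hK0 : 0 ≤ ‖K n u₁‖ ^ η := Real.rpow_nonneg (norm_nonneg _) _
    have hU0 : 0 ≤ ‖u₁ - un n‖ ^ (-a) := Real.rpow_nonneg (norm_nonneg _) _
    calc c * (L / 2) * ε n ^ (κ + θ)
        ≤ c * (‖((ε n : ℂ))⁻¹ * s n u₁‖ ^ (κ + θ) * ‖t' n u₁‖ * ‖K n u₁‖ ^ η * ‖u₁ - un n‖ ^ (-a)) * ε n ^ (κ + θ) := by gcongr
      _ = c * (‖s n u₁‖ ^ (κ + θ) * ‖t' n u₁‖) * ‖K n u₁‖ ^ η * ‖u₁ - un n‖ ^ (-a) := by rw [h10]; ring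
      _ ≤ e n u₁ * ‖K n u₁‖ ^ η * ‖u₁ - un n‖ ^ (-a) := by gcongr
  obtain ⟨c', hc', hlow'⟩ := hlow'
  -- the upper bound on the circles
  set q : ℝ := (κ + θ) * o + η * M - 2 - a with hq
  set C' : ℝ := C * (A ^ κ * A ^ θ * A * A ^ η) * 2 ^ a + 1 with hC'
  have hup' : ∀ R, ‖u₁‖ < R → ∀ᶠ n in (𝒰 : Filter ℕ), ∀ z ∈ sphere (0 : ℂ) R,
      e n z * ‖K n z‖ ^ η * ‖z - un n‖ ^ (-a) ≤ ε n ^ (κ + θ) * (C' * R ^ q) := by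
    intro R hR
    have hR0 : R₀ < R := hu₁.trans hR
    have hRp : 0 < R := hR₀.trans hR0
    refine unif_of_seq (isCompact_sphere (0 : ℂ) R) fun z₀ hz₀ z hz hzt => Filter.Eventually.frequently ?_
    have hz₀n : ‖z₀‖ = R := by simpa using hz₀
    have hz₀R : R₀ < ‖z₀‖ := by rw [hz₀n]; exact hR0
    have h1 := (hs z₀ hz₀R z hzt).norm
    have h1' := (hs' z₀ hz₀R z hzt).norm
    have h2 := (ht' z₀ hz₀R z hzt).norm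
    have h3 := (hK z₀ hz₀R z hzt).norm.rpow_const (p := η) (Or.inr hη)
    have h4 : Tendsto (fun n => ‖z n - un n‖ ^ (-a)) 𝒰 (𝓝 (‖z₀ - u₀‖ ^ (-a))) :=
      ((hzt.sub hun).norm).rpow_const (Or.inl (norm_ne_zero_iff.2 (sub_ne_zero.2 (hpos z₀ hz₀R))))
    have h5 : Tendsto (fun n => ε n ^ (1 - θ)) 𝒰 (𝓝 0) := by
      have := hε0.rpow_const (p := 1 - θ) (Or.inr (by linarith))
      rwa [Real.zero_rpow (by linarith)] at this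
    have h6 := ((((h1.rpow_const (p := κ) (Or.inr hκ)).mul ((h5.mul h1').add ((h1.rpow_const (p := θ) (Or.inr hθ.le)).mul h2))).const_mul
      C).mul h3).mul h4
    rw [zero_mul, zero_add] at h6
    -- the limit is small
    have hA1 : C * (‖σ z₀‖ ^ κ * (‖σ z₀‖ ^ θ * ‖τ z₀‖)) * ‖P z₀‖ ^ η * ‖z₀ - u₀‖ ^ (-a) < C' * R ^ q := by
      have hx1 : ‖σ z₀‖ ≤ A * R ^ o := by simpa [hz₀n] using hσA z₀ hz₀R
      have hx2 : ‖τ z₀‖ ≤ A * R ^ (-2 : ℝ) := by simpa [hz₀n] using hτA z₀ hz₀R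
      have hx3 : ‖P z₀‖ ≤ A * R ^ M := by simpa [hz₀n] using hPA z₀ hz₀R
      have hx4 : R / 2 ≤ ‖z₀ - u₀‖ := by
        have h7 : ‖z₀‖ - ‖u₀‖ ≤ ‖z₀ - u₀‖ := norm_sub_norm_le _ _
        rw [hz₀n] at h7
        linarith
      have hx5 : ‖z₀ - u₀‖ ^ (-a) ≤ (R / 2) ^ (-a) := Real.rpow_le_rpow_of_nonpos (by positivity) hx4 (by linarith)
      have hRo : 0 ≤ R ^ o := Real.rpow_nonneg hRp.le _
      have hRM : 0 ≤ R ^ M := Real.rpow_nonneg hRp.le _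
      calc C * (‖σ z₀‖ ^ κ * (‖σ z₀‖ ^ θ * ‖τ z₀‖)) * ‖P z₀‖ ^ η * ‖z₀ - u₀‖ ^ (-a)
          ≤ C * ((A * R ^ o) ^ κ * ((A * R ^ o) ^ θ * (A * R ^ (-2 : ℝ)))) * (A * R ^ M) ^ η * (R / 2) ^ (-a) := by gcongr
        _ = C * (A ^ κ * A ^ θ * A * A ^ η) * 2 ^ a * R ^ q := by
          rw [Real.mul_rpow hA hRo, Real.mul_rpow hA hRo, Real.mul_rpow hA hRM, ← Real.rpow_mul hRp.le, ← Real.rpow_mul hRp.le,
            ← Real.rpow_mul hRp.le, Real.div_rpow hRp.le (by norm_num), Real.rpow_neg (by norm_num : (0 : ℝ) ≤ 2) a, div_inv_eq_mul]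
          have hq' : R ^ q = R ^ (o * κ) * (R ^ (o * θ) * (R ^ (-2 : ℝ) * (R ^ (M * η) * R ^ (-a)))) := by
            rw [← Real.rpow_add hRp, ← Real.rpow_add hRp, ← Real.rpow_add hRp, ← Real.rpow_add hRp]
            congr 1
            rw [hq]
            ring
          rw [hq']
          ring
        _ < C' * R ^ q := by
          rw [hC', add_mul, one_mul]
          exact lt_add_of_pos_right _ (Real.rpow_pos_of_pos hRp _)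
    filter_upwards [h6.eventually (gt_mem_nhds hA1), hup R hR0, hε, hz] with n h7 h8 h9 h10
    have h11 : ‖s n (z n)‖ = ε n * ‖((ε n : ℂ))⁻¹ * s n (z n)‖ := by
      rw [norm_mul, norm_inv, Complex.norm_real, Real.norm_of_nonneg h9.le, mul_inv_cancel_left₀ h9.ne']
    have h12 : ‖s' n (z n)‖ = ε n * ‖((ε n : ℂ))⁻¹ * s' n (z n)‖ := by
      rw [norm_mul, norm_inv, Complex.norm_real, Real.norm_of_nonneg h9.le, mul_inv_cancel_left₀ h9.ne']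
    have h13 : ε n ^ κ * (ε n * ‖((ε n : ℂ))⁻¹ * s' n (z n)‖) = ε n ^ (κ + θ) * (ε n ^ (1 - θ) * ‖((ε n : ℂ))⁻¹ * s' n (z n)‖) := by
      have h14 : ε n ^ κ * ε n = ε n ^ (κ + θ) * ε n ^ (1 - θ) := by
        rw [← Real.rpow_add h9, show κ + θ + (1 - θ) = κ + 1 by ring, Real.rpow_add h9, Real.rpow_one]
      calc ε n ^ κ * (ε n * ‖((ε n : ℂ))⁻¹ * s' n (z n)‖) = ε n ^ κ * ε n * ‖((ε n : ℂ))⁻¹ * s' n (z n)‖ := by ring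
        _ = _ := by rw [h14]; ring
    have hK0 : 0 ≤ ‖K n (z n)‖ ^ η := Real.rpow_nonneg (norm_nonneg _) _
    have hU0 : 0 ≤ ‖z n - un n‖ ^ (-a) := Real.rpow_nonneg (norm_nonneg _) _
    calc e n (z n) * ‖K n (z n)‖ ^ η * ‖z n - un n‖ ^ (-a)
        ≤ C * (‖s n (z n)‖ ^ κ * (‖s' n (z n)‖ + ‖s n (z n)‖ ^ θ * ‖t' n (z n)‖)) * ‖K n (z n)‖ ^ η * ‖z n - un n‖ ^ (-a) := by
          have := h8 (z n) h10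
          gcongr
      _ = ε n ^ (κ + θ) * (C * (‖((ε n : ℂ))⁻¹ * s n (z n)‖ ^ κ * (ε n ^ (1 - θ) * ‖((ε n : ℂ))⁻¹ * s' n (z n)‖ +
          ‖((ε n : ℂ))⁻¹ * s n (z n)‖ ^ θ * ‖t' n (z n)‖)) * ‖K n (z n)‖ ^ η * ‖z n - un n‖ ^ (-a)) := by
          rw [h11, h12, Real.mul_rpow h9.le (norm_nonneg _), Real.mul_rpow h9.le (norm_nonneg _)]
          rw [show ε n ^ κ * ‖((ε n : ℂ))⁻¹ * s n (z n)‖ ^ κ * (ε n * ‖((ε n : ℂ))⁻¹ * s' n (z n)‖ +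
            ε n ^ θ * ‖((ε n : ℂ))⁻¹ * s n (z n)‖ ^ θ * ‖t' n (z n)‖) =
            ‖((ε n : ℂ))⁻¹ * s n (z n)‖ ^ κ * (ε n ^ κ * (ε n * ‖((ε n : ℂ))⁻¹ * s' n (z n)‖) +
            (ε n ^ κ * ε n ^ θ) * (‖((ε n : ℂ))⁻¹ * s n (z n)‖ ^ θ * ‖t' n (z n)‖)) by ring, h13, ← Real.rpow_add h9]
          ring
      _ ≤ ε n ^ (κ + θ) * (C' * R ^ q) := by
          have h14 : 0 ≤ ε n ^ (κ + θ) := Real.rpow_nonneg h9.le _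
          exact mul_le_mul_of_nonneg_left h7.le h14
  have h := exponent_nonneg (W := fun n z => e n z * ‖K n z‖ ^ η * ‖z - un n‖ ^ (-a)) hδ hε le_rfl hc' (by positivity) hlow'
    (fun R hR => husc R (hu₁.trans hR)) (fun R hR => hsub R (hu₁.trans hR)) hup'
  rw [hq] at h
  linarith

end Pool.Agent.H23.NE
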