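import Pool.Agent.H36.BP.MaxP
import Pool.Agent.H36.BP.SubB
import Pool.Agent.H74.NB.CC

/-!
# NE Core: the base step of Lemma (E)

`W n = e n * N n ^ η * ‖u - u n‖ ^ (-a)` has lower supports of exponent `-δ n → 0`.  It is at least `c ε n ^ p` at one point and at most `C ε n ^ p R ^ q` on the
circles of radius `R`: so `0 ≤ q`.
-/

set_option autoImplicit false

open Topology Filter Metric

namespace Pool.Agent.H23.NE

open Pool.Agent.H36.BP (Sub Sub.mul Sub.congr Sub.exp_sq max_principle)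
open Pool.Agent.H74.NB (CC unif_of_seq)

/-- the maximum principle with a small negative exponent -/
theorem max_core {u : ℂ → ℝ} {R A δ d : ℝ} (hd0 : 0 ≤ d) (hδd : δ < d) (hu : UpperSemicontinuousOn u (closedBall 0 R)) (hA : 0 ≤ A)
    (hb : ∀ z ∈ sphere (0 : ℂ) R, u z ≤ A) (hs : ∀ z ∈ ball (0 : ℂ) R, 0 < u z → Sub u z (-δ)) :
    ∀ z ∈ closedBall (0 : ℂ) R, u z ≤ A * Real.exp (d * R ^ 2) := by
  intro z hz
  have hR : 0 ≤ R := (norm_nonneg z).trans (by simpa using hz)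
  set v : ℂ → ℝ := fun w => u w * Real.exp (d * ‖w‖ ^ 2) with hv
  have hvb : ∀ w ∈ closedBall (0 : ℂ) R \ ball 0 R, v w ≤ A * Real.exp (d * R ^ 2) := by
    rintro w ⟨h1, h2⟩
    have h3 : ‖w‖ = R := by
      have h4 : ‖w‖ ≤ R := by simpa using h1
      have h5 : ¬ ‖w‖ < R := by simpa using h2
      linarith
    have h4 : u w ≤ A := hb w (by simpa using h3)
    simp only [hv]
    rw [h3]
    gcongr
  have hvu : UpperSemicontinuousOn v (closedBall 0 R) := by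
    have hcont : Continuous fun w : ℂ => Real.exp (d * ‖w‖ ^ 2) := by fun_prop
    intro w hw y hy
    simp only [hv] at hy
    have he : 0 < Real.exp (d * ‖w‖ ^ 2) := Real.exp_pos _
    -- choose a bound for u near w
    obtain ⟨y₁, hy1, hy2⟩ : ∃ y₁, u w < y₁ ∧ y₁ * Real.exp (d * ‖w‖ ^ 2) < y := by
      have h1 : u w < y / Real.exp (d * ‖w‖ ^ 2) := by rwa [lt_div_iff₀ he]
      obtain ⟨y₁, h2, h3⟩ := exists_between h1
      exact ⟨y₁, h2, by rwa [lt_div_iff₀ he] at h3⟩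
    have h1 : ∀ᶠ w' in 𝓝[closedBall 0 R] w, u w' < y₁ := hu w hw y₁ hy1
    have h2 : ∀ᶠ w' in 𝓝 w, y₁ * Real.exp (d * ‖w'‖ ^ 2) < y :=
      ((continuous_const.mul hcont).tendsto w).eventually_lt_const hy2
    filter_upwards [h1, h2.filter_mono nhdsWithin_le_nhds] with w' h3 h4
    simp only [hv]
    calc u w' * Real.exp (d * ‖w'‖ ^ 2) ≤ y₁ * Real.exp (d * ‖w'‖ ^ 2) := by gcongr
      _ < y := h4
  have hsub : ∀ w ∈ ball (0 : ℂ) R, 0 < v w → ∃ c, 0 < c ∧ Sub v w c := by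
    intro w hw hvw
    have huw : 0 < u w := by
      simp only [hv] at hvw
      exact pos_of_mul_pos_left hvw (Real.exp_pos _).le
    refine ⟨d - δ, by linarith, ?_⟩
    have h1 := (hs w hw huw).mul (Sub.exp_sq (t := fun z : ℂ => z) (z₀ := w) analyticAt_id d)
    have h2 : -δ + d * ‖deriv (fun z : ℂ => z) w‖ ^ 2 = d - δ := by
      simp
      ring
    rwa [h2] at h1
  have h1 := max_principle (isCompact_closedBall (0 : ℂ) R) isOpen_ball ball_subset_closedBall hvu hsub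
    (mul_nonneg hA (Real.exp_pos _).le) hvb z hz
  rcases le_or_gt (u z) 0 with h2 | h2
  · exact h2.trans (mul_nonneg hA (Real.exp_pos _).le)
  · refine le_trans ?_ h1
    simp only [hv]
    exact le_mul_of_one_le_right h2.le (Real.one_le_exp (by positivity))

variable {𝒰 : Ultrafilter ℕ}

/-- a lower bound at one point and an upper bound on large circles -/
theorem exponent_nonneg {W : ℕ → ℂ → ℝ} {δ ε : ℕ → ℝ} (hδ : Tendsto δ 𝒰 (𝓝 0)) (hε : ∀ᶠ n in (𝒰 : Filter ℕ), 0 < ε n) {R₀ p q c C : ℝ}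
    {u₁ : ℂ} (hu₁ : ‖u₁‖ ≤ R₀) (hc : 0 < c) (hC : 0 ≤ C) (hlow : ∀ᶠ n in (𝒰 : Filter ℕ), c * ε n ^ p ≤ W n u₁)
    (husc : ∀ R, R₀ < R → ∀ᶠ n in (𝒰 : Filter ℕ), UpperSemicontinuousOn (W n) (closedBall 0 R))
    (hsub : ∀ R, R₀ < R → ∀ᶠ n in (𝒰 : Filter ℕ), ∀ z ∈ ball (0 : ℂ) R, 0 < W n z → Sub (W n) z (-δ n))
    (hup : ∀ R, R₀ < R → ∀ᶠ n in (𝒰 : Filter ℕ), ∀ z ∈ sphere (0 : ℂ) R, W n z ≤ ε n ^ p * (C * R ^ q)) : 0 ≤ q := by
  by_contra hq
  push Not at hq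
  -- choose `R` large
  have h1 : Tendsto (fun R : ℝ => C * R ^ q * Real.exp 1) atTop (𝓝 (C * 0 * Real.exp 1)) :=
    (((tendsto_rpow_neg_atTop (y := -q) (by linarith)).congr fun R => by rw [neg_neg]).const_mul C).mul_const _
  rw [mul_zero, zero_mul] at h1
  obtain ⟨R, hR1, hR2⟩ : ∃ R : ℝ, C * R ^ q * Real.exp 1 < c ∧ max R₀ 0 < R :=
    ((h1.eventually (gt_mem_nhds hc)).and (eventually_gt_atTop (max R₀ 0))).exists
  have hR0 : R₀ < R := (le_max_left _ _).trans_lt hR2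
  have hRp : 0 < R := (le_max_right _ _).trans_lt hR2
  have hR2 : 0 < R ^ 2 := by positivity
  obtain ⟨n, h2, h3, h4, h5, h6, h7⟩ := (hlow.and ((husc R hR0).and ((hsub R hR0).and ((hup R hR0).and (hε.and
    (hδ.eventually (gt_mem_nhds (show (0 : ℝ) < 1 / R ^ 2 by positivity)))))))).exists
  have h8 := max_core (d := 1 / R ^ 2) (by positivity) h7 h3 (A := ε n ^ p * (C * R ^ q))
    (mul_nonneg (Real.rpow_nonneg h6.le _) (mul_nonneg hC (Real.rpow_nonneg hRp.le _))) h5 h4 u₁ (by simpa using hu₁.trans hR0.le)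
  rw [one_div, inv_mul_cancel₀ hR2.ne'] at h8
  have h9 := h2.trans h8
  have h10 : 0 < ε n ^ p := Real.rpow_pos_of_pos h6 _
  have h11 : ε n ^ p * c ≤ ε n ^ p * (C * R ^ q * Real.exp 1) := by
    calc ε n ^ p * c = c * ε n ^ p := mul_comm _ _
      _ ≤ _ := h9
      _ = _ := by ring
  exact absurd (le_of_mul_le_mul_left h11 h10) (not_le.2 hR1)

end Pool.Agent.H23.NE
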