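import Mathlib

/-!
# NE Lim3: the limit of the two-sided bound

`s n ~ lam n * y`, `s' n → y'`, `g n ~ lam n ^ M * p`, `c |s|^a |s'| g^(-b) ≤ U ≤ C lam^(a - bM)`: then `c |y|^a |y'| ≤ C p^b`.
-/

set_option autoImplicit false

open Topology Filter

namespace Pool.Agent.H23.NE

theorem step3 {𝒰 : Filter ℕ} [𝒰.NeBot] {lam : ℕ → ℝ} (hlam : ∀ᶠ n in 𝒰, 0 < lam n) {s s' : ℕ → ℂ} {g U : ℕ → ℝ} {y y' : ℂ} {a b c C M p : ℝ}
    (ha : 0 ≤ a) (hs : Tendsto (fun n => s n / lam n) 𝒰 (𝓝 y)) (hs' : Tendsto s' 𝒰 (𝓝 y'))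
    (hg : Tendsto (fun n => g n / lam n ^ M) 𝒰 (𝓝 p)) (hp : 0 < p)
    (hlow : ∀ᶠ n in 𝒰, c * ‖s n‖ ^ a * ‖s' n‖ * g n ^ (-b) ≤ U n) (hup : ∀ᶠ n in 𝒰, U n ≤ C * lam n ^ (a - b * M)) :
    c * ‖y‖ ^ a * ‖y'‖ ≤ C * p ^ b := by
  have h1 : Tendsto (fun n => ‖s n / lam n‖ ^ a) 𝒰 (𝓝 (‖y‖ ^ a)) := hs.norm.rpow_const (Or.inr ha)
  have h2 : Tendsto (fun n => (g n / lam n ^ M) ^ (-b)) 𝒰 (𝓝 (p ^ (-b))) := hg.rpow_const (Or.inl hp.ne')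
  have h3 : Tendsto (fun n => c * ‖s n / lam n‖ ^ a * ‖s' n‖ * (g n / lam n ^ M) ^ (-b)) 𝒰 (𝓝 (c * ‖y‖ ^ a * ‖y'‖ * p ^ (-b))) :=
    ((h1.const_mul c).mul hs'.norm).mul h2
  have h4 : c * ‖y‖ ^ a * ‖y'‖ * p ^ (-b) ≤ C := by
    refine le_of_tendsto h3 ?_
    filter_upwards [hlam, hlow, hup, hg.eventually (lt_mem_nhds (half_lt_self hp))] with n h5 h6 h7 h8
    have hl : 0 < lam n ^ (a - b * M) := Real.rpow_pos_of_pos h5 _
    have hlM : 0 < lam n ^ M := Real.rpow_pos_of_pos h5 _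
    have hg0 : 0 < g n := by
      by_contra h9
      push Not at h9
      have : g n / lam n ^ M ≤ 0 := div_nonpos_of_nonpos_of_nonneg h9 hlM.le
      linarith [half_pos hp]
    have h9 : ‖s n / lam n‖ ^ a = ‖s n‖ ^ a * lam n ^ (-a) := by
      rw [norm_div, Complex.norm_real, Real.norm_of_nonneg h5.le, Real.div_rpow (norm_nonneg _) h5.le, Real.rpow_neg h5.le, div_eq_mul_inv]
    have h10 : (g n / lam n ^ M) ^ (-b) = g n ^ (-b) * lam n ^ (b * M) := by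
      rw [Real.div_rpow hg0.le hlM.le, ← Real.rpow_mul h5.le, div_eq_mul_inv, ← Real.rpow_neg h5.le]
      congr 2
      ring
    have h11 : lam n ^ (-a) * lam n ^ (b * M) = (lam n ^ (a - b * M))⁻¹ := by
      rw [← Real.rpow_add h5, ← Real.rpow_neg h5.le]
      congr 1
      ring
    calc c * ‖s n / lam n‖ ^ a * ‖s' n‖ * (g n / lam n ^ M) ^ (-b)
        = (c * ‖s n‖ ^ a * ‖s' n‖ * g n ^ (-b)) * (lam n ^ (-a) * lam n ^ (b * M)) := by rw [h9, h10]; ring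
      _ = (c * ‖s n‖ ^ a * ‖s' n‖ * g n ^ (-b)) * (lam n ^ (a - b * M))⁻¹ := by rw [h11]
      _ ≤ (C * lam n ^ (a - b * M)) * (lam n ^ (a - b * M))⁻¹ := by
          have := h6.trans h7
          have h12 : 0 ≤ (lam n ^ (a - b * M))⁻¹ := (inv_pos.2 hl).le
          exact mul_le_mul_of_nonneg_right this h12
      _ = C := by rw [mul_assoc, mul_inv_cancel₀ hl.ne', mul_one]
  have h5 : p ^ (-b) * p ^ b = 1 := by
    rw [← Real.rpow_add hp, neg_add_cancel, Real.rpow_zero]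
  have h6 : 0 < p ^ b := Real.rpow_pos_of_pos hp _
  calc c * ‖y‖ ^ a * ‖y'‖ = (c * ‖y‖ ^ a * ‖y'‖ * p ^ (-b)) * p ^ b := by rw [mul_assoc (c * ‖y‖ ^ a * ‖y'‖), h5, mul_one]
    _ ≤ C * p ^ b := mul_le_mul_of_nonneg_right h4 h6.le

end Pool.Agent.H23.NE
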