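import Pool.Agent.H74.NB.Child

/-!
# NE Scal: rescaling of a scalar function at a zero

`q n → (z - w)^K k z` on a disc, `k w ≠ 0`, `b n → w`, `ρ n → 0`: then `(ε n)⁻¹ q n (b n + ρ n u)` converges on all of `ℂ` to a polynomial of degree at most `K`,
for suitable `ε n > 0`.
-/

set_option autoImplicit false
set_option linter.unusedSectionVars false

open Topology Filter Metric Polynomial

namespace Pool.Agent.H23.NE

open Pool.Agent.H74.NB (CC unif_of_seq exists_lim weier ev_ball)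

variable {E : Type*} [NormedAddCommGroup E] [NormedSpace ℂ E] {𝒰 : Ultrafilter ℕ}

/-- convergence of the derivatives -/
theorem cc_deriv [CompleteSpace E] {F : ℕ → ℂ → E} {f : ℂ → E} {Ω : Set ℂ}
    (hF : ∀ z₀ ∈ Ω, ∃ r : ℝ, 0 < r ∧ ball z₀ r ⊆ Ω ∧ ∀ᶠ n in (𝒰 : Filter ℕ), DifferentiableOn ℂ (F n) (ball z₀ r))
    (hf : DifferentiableOn ℂ f Ω) (h : CC 𝒰 F f Ω) : CC 𝒰 (fun n => deriv (F n)) (deriv f) Ω := by
  intro z₀ hz₀ z hz
  obtain ⟨r, hr, hrΩ, hd⟩ := hF z₀ hz₀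
  have h1 := CC.dslope hd (hf.mono hrΩ) (h.mono hrΩ) hz z₀ (mem_ball_self hr) z hz
  simpa [dslope_same] using h1

/-- a sequence has a limit along the ultrafilter, or its norm tends to infinity -/
theorem dich (x : ℕ → ℂ) : (∃ α, Tendsto x 𝒰 (𝓝 α)) ∨ Tendsto (fun n => ‖x n‖) 𝒰 atTop := by
  by_cases h : ∃ R : ℝ, ∀ᶠ n in (𝒰 : Filter ℕ), x n ∈ closedBall (0 : ℂ) R
  · obtain ⟨R, hR⟩ := h
    obtain ⟨α, -, hα⟩ := exists_lim (isCompact_closedBall (0 : ℂ) R) hR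
    exact Or.inl ⟨α, hα⟩
  · right
    push Not at h
    refine tendsto_atTop.2 fun R => ?_
    filter_upwards [h R] with n hn
    simp only [mem_closedBall, dist_zero_right, not_le] at hn
    exact hn.le

/-- one root -/
theorem root_resc {a b : ℕ → ℂ} {ρ : ℕ → ℝ} (hρ : ∀ᶠ n in (𝒰 : Filter ℕ), 0 < ρ n) :
    ∃ (l : ℕ → ℂ) (P : ℂ[X]), (∀ᶠ n in (𝒰 : Filter ℕ), l n ≠ 0) ∧ P ≠ 0 ∧ P.natDegree ≤ 1 ∧
      CC 𝒰 (fun n u => (l n)⁻¹ * (b n + ρ n * u - a n)) (fun u => P.eval u) Set.univ := by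
  rcases dich (𝒰 := 𝒰) (fun n => (a n - b n) / ρ n) with ⟨α, hα⟩ | hα
  · refine ⟨fun n => ρ n, X - C α, ?_, X_sub_C_ne_zero α, (natDegree_X_sub_C α).le, ?_⟩
    · filter_upwards [hρ] with n hn
      exact_mod_cast hn.ne'
    · intro u₀ _ u hu
      have h1 : Tendsto (fun n => u n - (a n - b n) / ρ n) 𝒰 (𝓝 (u₀ - α)) := hu.sub hα
      simp only [eval_sub, eval_X, eval_C]
      refine h1.congr' ?_
      filter_upwards [hρ] with n hn
      have hn' : (ρ n : ℂ) ≠ 0 := by exact_mod_cast hn.ne'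
      field_simp
      ring
  · refine ⟨fun n => -(a n - b n), 1, ?_, one_ne_zero, by simp, ?_⟩
    · filter_upwards [hα.eventually (eventually_gt_atTop 0)] with n hn h0
      rw [neg_eq_zero] at h0
      rw [h0, zero_div, norm_zero] at hn
      exact lt_irrefl _ hn
    · intro u₀ _ u hu
      have h1 : Tendsto (fun n => ((a n - b n) / ρ n)⁻¹) 𝒰 (𝓝 0) := by
        rw [tendsto_zero_iff_norm_tendsto_zero]
        simp only [norm_inv]
        exact hα.inv_tendsto_atTop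
      have h2 : Tendsto (fun n => 1 - u n * ((a n - b n) / ρ n)⁻¹) 𝒰 (𝓝 (1 - u₀ * 0)) := (tendsto_const_nhds).sub (hu.mul h1)
      rw [mul_zero, sub_zero] at h2
      simp only [eval_one]
      refine h2.congr' ?_
      filter_upwards [hρ, hα.eventually (eventually_gt_atTop 0)] with n hn hn2
      have hn' : (ρ n : ℂ) ≠ 0 := by exact_mod_cast hn.ne'
      have h3 : a n - b n ≠ 0 := by
        intro h0
        rw [h0, zero_div, norm_zero] at hn2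
        exact lt_irrefl _ hn2
      field_simp
      ring

/-- finite products -/
theorem cc_prod {F : ℕ → ℕ → ℂ → ℂ} {f : ℕ → ℂ → ℂ} {Ω : Set ℂ} (h : ∀ i, CC 𝒰 (F i) (f i) Ω) (K : ℕ) :
    CC 𝒰 (fun n u => ∏ i ∈ Finset.range K, F i n u) (fun u => ∏ i ∈ Finset.range K, f i u) Ω := by
  intro u₀ hu₀ u hu
  exact tendsto_finsetProd _ fun i _ => h i u₀ hu₀ u hu

/-- the phase of a normalising factor -/
theorem real_norm {l : ℕ → ℂ} (hl : ∀ᶠ n in (𝒰 : Filter ℕ), l n ≠ 0) :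
    ∃ ω : ℂ, ω ≠ 0 ∧ Tendsto (fun n => l n / ‖l n‖) 𝒰 (𝓝 ω) := by
  obtain ⟨ω, h1, h2⟩ := exists_lim (𝒰 := 𝒰) (isCompact_sphere (0 : ℂ) 1) (x := fun n => l n / ‖l n‖) (by
    filter_upwards [hl] with n hn
    have : ‖l n‖ ≠ 0 := norm_ne_zero_iff.2 hn
    simp [this])
  refine ⟨ω, ?_, h2⟩
  rintro rfl
  simp at h1

/-- **Rescaling of a scalar function at a zero.** -/
theorem scal_resc {w : ℂ} {r : ℝ} (hr : 0 < r) {k : ℂ → ℂ} (hk : DifferentiableOn ℂ k (ball w r)) (hk0 : k w ≠ 0) {K : ℕ} {q : ℕ → ℂ → ℂ}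
    (hd : ∀ᶠ n in (𝒰 : Filter ℕ), DifferentiableOn ℂ (q n) (ball w r)) (hc : CC 𝒰 q (fun z => (z - w) ^ K * k z) (ball w r))
    {b : ℕ → ℂ} {ρ : ℕ → ℝ} (hb : Tendsto b 𝒰 (𝓝 w)) (hρ : ∀ᶠ n in (𝒰 : Filter ℕ), 0 < ρ n) (hρ0 : Tendsto ρ 𝒰 (𝓝 0)) :
    ∃ (ε : ℕ → ℝ) (S : ℂ[X]), (∀ᶠ n in (𝒰 : Filter ℕ), 0 < ε n) ∧ S ≠ 0 ∧ S.natDegree ≤ K ∧
      CC 𝒰 (fun n u => ((ε n : ℂ))⁻¹ * q n (b n + ρ n * u)) (fun u => S.eval u) Set.univ := by
  obtain ⟨a, q', ha, hq1, hq2, hq3⟩ := weier (𝒰 := 𝒰) hr hk hk0 K hd hc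
  choose l P hl hP0 hP1 hP2 using fun i => root_resc (𝒰 := 𝒰) (a := a i) (b := b) hρ
  set L : ℕ → ℂ := fun n => ∏ i ∈ Finset.range K, l i n with hL
  have hL0 : ∀ᶠ n in (𝒰 : Filter ℕ), L n ≠ 0 := by
    have : ∀ᶠ n in (𝒰 : Filter ℕ), ∀ i ∈ Finset.range K, l i n ≠ 0 := (Filter.eventually_all_finset _).2 fun i _ => hl i
    filter_upwards [this] with n hn
    exact Finset.prod_ne_zero_iff.2 hn
  obtain ⟨ω, hω, hωt⟩ := real_norm hL0
  refine ⟨fun n => ‖L n‖, C (ω * k w) * ∏ i ∈ Finset.range K, P i, ?_, ?_, ?_, ?_⟩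
  · filter_upwards [hL0] with n hn
    exact norm_pos_iff.2 hn
  · exact mul_ne_zero (C_ne_zero.2 (mul_ne_zero hω hk0)) (Finset.prod_ne_zero_iff.2 fun i _ => hP0 i)
  · refine (natDegree_C_mul_le _ _).trans ((natDegree_prod_le _ _).trans ?_)
    calc ∑ i ∈ Finset.range K, (P i).natDegree ≤ ∑ _i ∈ Finset.range K, 1 := Finset.sum_le_sum fun i _ => hP1 i
      _ = K := by simp
  · intro u₀ _ u hu
    have h1 := cc_prod (fun i => hP2 i) K u₀ (Set.mem_univ _) u hu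
    have h2 : Tendsto (fun n => b n + ρ n * u n) 𝒰 (𝓝 w) := by
      have h3 : Tendsto (fun n => (ρ n : ℂ)) 𝒰 (𝓝 ((0 : ℝ) : ℂ)) := (Complex.continuous_ofReal.tendsto _).comp hρ0
      have h4 := hb.add (h3.mul hu)
      simpa using h4
    have h3 := hq3 w (mem_ball_self hr) _ h2
    have h4 := (hωt.mul h3).mul h1
    have h5 : (fun u => (C (ω * k w) * ∏ i ∈ Finset.range K, P i).eval u) u₀ =
        ω * k w * ∏ i ∈ Finset.range K, (P i).eval u₀ := by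
      simp [eval_prod]
    rw [h5]
    refine h4.congr' ?_
    filter_upwards [hq2, hL0] with n h6 h7
    rw [h6 (b n + ρ n * u n), Finset.prod_mul_distrib, Finset.prod_inv_distrib]
    have h8 : (‖L n‖ : ℂ) ≠ 0 := by exact_mod_cast (norm_pos_iff.2 h7).ne'
    have h9 : ∏ i ∈ Finset.range K, l i n = L n := rfl
    rw [h9]
    field_simp

end Pool.Agent.H23.NE
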